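import Pool.Agent.Helper672.Lv.N5

set_option autoImplicit false

/-!
Spectral projections of families of complex symmetric matrices (the proof of
`Helper672.Lv.exists_family_proj` with one more conclusion).
-/

namespace Pool.Agent.H804R5

open Pool.Agent.Helper672.Lv Matrix

/-- spectral projections of a compact family without real eigenvalues. -/
theorem exists_family_proj_symm {X : Type*} [TopologicalSpace X] [CompactSpace X] {N : ℕ}
    (R : X → Matrix (Fin N) (Fin N) ℂ) (hR : Continuous R)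
    (hno : ∀ x (t : ℝ), (R x - (t : ℂ) • (1 : Matrix (Fin N) (Fin N) ℂ)).det ≠ 0) :
    ∃ P : X → Matrix (Fin N) (Fin N) ℂ, Continuous P ∧ (∀ x, P x * P x = P x) ∧
      (∀ x y, R y = - R x → P y = 1 - P x) ∧ ∀ x, (R x)ᵀ = R x → (P x)ᵀ = P x := by
  obtain ⟨ρ, hρ, hb⟩ := J27085.exists_radius R hR hno
  have hneg : ∀ (A : Matrix (Fin N) (Fin N) ℂ) (z : ℂ),
      (z • (1 : Matrix (Fin N) (Fin N) ℂ) - A).det = 0 →
      (A - z • (1 : Matrix (Fin N) (Fin N) ℂ)).det = 0 := by
    intro A z h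
    have e : A - z • (1 : Matrix (Fin N) (Fin N) ℂ) =
        -(z • (1 : Matrix (Fin N) (Fin N) ℂ) - A) := by abel
    rw [e, Matrix.det_neg, h, mul_zero]
  have hc : ∀ x, ∀ z : ℂ, ‖z - (ρ : ℂ) * Complex.I‖ = ρ →
      (z • (1 : Matrix (Fin N) (Fin N) ℂ) - R x).det ≠ 0 := by
    intro x z hz h
    have h1 := hb x z (hneg _ _ h)
    have h2 := normSq_sub_rho ρ z
    rw [hz] at h2
    have h3 : ‖z‖ ^ 2 = 2 * ρ * z.im := by linarith
    have h4 : 0 ≤ z.im := by
      by_contra h5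
      push Not at h5
      have : 2 * ρ * z.im < 0 := by nlinarith
      have := sq_nonneg ‖z‖
      linarith
    rw [abs_of_nonneg h4] at h1
    linarith
  have hin : ∀ x (μ : ℂ) (k : ℕ) (u : Fin N → ℂ),
      ((R x - μ • (1 : Matrix (Fin N) (Fin N) ℂ)) ^ k).mulVec u = 0 →
      (R x - μ • (1 : Matrix (Fin N) (Fin N) ℂ)).det = 0 → 0 < μ.im →
      (Ec ρ (R x)).mulVec u = u := by
    intro x μ k u hu hd hi
    refine J27086.Ec_inside hρ (R x) (hc x) μ ?_ k u hu
    have h1 := hb x μ hd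
    have h2 := normSq_sub_rho ρ μ
    rw [abs_of_pos hi] at h1
    have h3 : ‖μ - (ρ : ℂ) * Complex.I‖ ^ 2 < ρ ^ 2 := by linarith
    exact lt_of_pow_lt_pow_left₀ 2 hρ.le h3
  have hout : ∀ x (μ : ℂ) (k : ℕ) (u : Fin N → ℂ),
      ((R x - μ • (1 : Matrix (Fin N) (Fin N) ℂ)) ^ k).mulVec u = 0 →
      (R x - μ • (1 : Matrix (Fin N) (Fin N) ℂ)).det = 0 → μ.im < 0 →
      (Ec ρ (R x)).mulVec u = 0 := by
    intro x μ k u hu hd hi
    refine J27086.Ec_outside hρ (R x) (hc x) μ ?_ k u hu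
    have h2 := normSq_sub_rho ρ μ
    have h4 : 0 < -(2 * ρ * μ.im) := by nlinarith
    have h3 : ρ ^ 2 < ‖μ - (ρ : ℂ) * Complex.I‖ ^ 2 := by
      have := sq_nonneg ‖μ‖
      linarith
    exact lt_of_pow_lt_pow_left₀ 2 (norm_nonneg _) h3
  have him : ∀ x (μ : ℂ), (R x - μ • (1 : Matrix (Fin N) (Fin N) ℂ)).det = 0 →
      0 < μ.im ∨ μ.im < 0 := by
    intro x μ hd
    rcases lt_trichotomy μ.im 0 with h | h | h
    · exact Or.inr h
    · exfalso
      apply hno x μ.re
      have e : ((μ.re : ℝ) : ℂ) = μ := by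
        apply Complex.ext
        · simp
        · simp [h]
      rw [e]; exact hd
    · exact Or.inl h
  refine ⟨fun x => Ec ρ (R x), J27087.Ec_continuous hρ R hR hc, ?_, ?_, ?_⟩
  · intro x
    refine J27088.ext_genEigen (R x) _ _ ?_
    intro μ k u hu hd
    rw [← Matrix.mulVec_mulVec]
    rcases him x μ hd with h | h
    · rw [hin x μ k u hu hd h, hin x μ k u hu hd h]
    · rw [hout x μ k u hu hd h, Matrix.mulVec_zero]
  · intro x y hxy
    refine J27088.ext_genEigen (R x) _ _ ?_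
    intro μ k u hu hd
    have e : R y - (-μ) • (1 : Matrix (Fin N) (Fin N) ℂ) =
        -(R x - μ • (1 : Matrix (Fin N) (Fin N) ℂ)) := by
      rw [hxy, neg_smul]; abel
    have hu' : ((R y - (-μ) • (1 : Matrix (Fin N) (Fin N) ℂ)) ^ k).mulVec u = 0 := by
      rw [e, neg_pow, ← Matrix.mulVec_mulVec, hu, Matrix.mulVec_zero]
    have hd' : (R y - (-μ) • (1 : Matrix (Fin N) (Fin N) ℂ)).det = 0 := by
      rw [e, Matrix.det_neg, hd, mul_zero]
    rw [Matrix.sub_mulVec, Matrix.one_mulVec]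
    rcases him x μ hd with h | h
    · rw [hin x μ k u hu hd h, hout y (-μ) k u hu' hd' (by simpa using h), sub_self]
    · rw [hout x μ k u hu hd h, hin y (-μ) k u hu' hd' (by simpa using h), sub_zero]
  · intro x hx
    ext i j
    simp only [Matrix.transpose_apply, Ec]
    congr 1
    congr 1
    funext z
    have h1 : ((z • (1 : Matrix (Fin N) (Fin N) ℂ) - R x)⁻¹)ᵀ =
        (z • (1 : Matrix (Fin N) (Fin N) ℂ) - R x)⁻¹ := by
      rw [Matrix.transpose_nonsing_inv, Matrix.transpose_sub, Matrix.transpose_smul,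
        Matrix.transpose_one, hx]
    have h2 := congrFun (congrFun h1 i) j
    rw [Matrix.transpose_apply] at h2
    exact h2



end Pool.Agent.H804R5
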