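import Pool.Agent.H804R5.Topo
import Pool.Agent.H804R5.Proj
import Pool.Agent.H982R3.Sing

set_option autoImplicit false

/-!
A real space of dimension `n + 3` of symmetric complex `2n × 2n` matrices contains a nonzero
singular matrix.
-/

namespace Pool.Agent.H804R5

open Set Matrix Pool.Agent.Helper133.BU Pool.Agent.Helper133.BT

/-- the real part of a symmetric complex involution does not decrease norms of real vectors. -/
theorem re_low {N : ℕ} (S : Matrix (Fin N) (Fin N) ℂ) (h2 : S * S = 1) (hs : Sᵀ = S)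
    (v : EuclideanSpace ℝ (Fin N)) :
    ‖v‖ ≤ ‖Matrix.toEuclideanCLM (n := Fin N) (𝕜 := ℝ) (S.map Complex.re) v‖ := by
  set u : Fin N → ℂ := fun i => (v i : ℂ) with hu
  set y := S *ᵥ u with hy
  have h1 : y ⬝ᵥ y = u ⬝ᵥ u := by
    rw [hy, Matrix.dotProduct_mulVec, ← Matrix.mulVec_transpose, hs, Matrix.mulVec_mulVec, h2,
      Matrix.one_mulVec]
  have hre : ∀ i, (y i).re = (Matrix.toEuclideanCLM (n := Fin N) (𝕜 := ℝ) (S.map Complex.re) v) i := by
    intro i
    have : (Matrix.toEuclideanCLM (n := Fin N) (𝕜 := ℝ) (S.map Complex.re) v) i =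
        ((S.map Complex.re) *ᵥ (WithLp.ofLp v)) i := by
      rw [← Matrix.ofLp_toEuclideanCLM]
    rw [this, hy]
    simp only [Matrix.mulVec, dotProduct, Complex.re_sum, hu, Matrix.map_apply]
    refine Finset.sum_congr rfl fun j _ => ?_
    simp
  have h3 : ∑ i, (v i) ^ 2 = ∑ i, ((y i).re ^ 2 - (y i).im ^ 2) := by
    have h4 := congrArg Complex.re h1
    simp only [dotProduct, Complex.re_sum] at h4
    rw [eq_comm]
    calc ∑ i, ((y i).re ^ 2 - (y i).im ^ 2) = ∑ i, (y i * y i).re := by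
          refine Finset.sum_congr rfl fun i _ => ?_
          rw [Complex.mul_re]; ring
      _ = ∑ i, (u i * u i).re := h4
      _ = ∑ i, (v i) ^ 2 := by
          refine Finset.sum_congr rfl fun i _ => ?_
          simp [hu]; ring
  have h5 : ‖v‖ ^ 2 ≤ ‖Matrix.toEuclideanCLM (n := Fin N) (𝕜 := ℝ) (S.map Complex.re) v‖ ^ 2 := by
    rw [EuclideanSpace.norm_sq_eq, EuclideanSpace.norm_sq_eq]
    simp only [Real.norm_eq_abs, sq_abs]
    rw [h3]
    refine Finset.sum_le_sum fun i _ => ?_
    rw [hre i]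
    nlinarith [sq_nonneg (y i).im]
  exact le_of_sq_le_sq h5 (norm_nonneg _)

theorem re_symm {N : ℕ} (S : Matrix (Fin N) (Fin N) ℂ) (hs : Sᵀ = S)
    (u v : EuclideanSpace ℝ (Fin N)) :
    inner ℝ (Matrix.toEuclideanCLM (n := Fin N) (𝕜 := ℝ) (S.map Complex.re) u) v =
      inner ℝ u (Matrix.toEuclideanCLM (n := Fin N) (𝕜 := ℝ) (S.map Complex.re) v) := by
  have hA : (S.map Complex.re)ᵀ = S.map Complex.re := by
    rw [← Matrix.transpose_map, hs]
  rw [real_inner_comm, Matrix.inner_toEuclideanCLM, Matrix.inner_toEuclideanCLM,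
    Matrix.dotProduct_mulVec, ← Matrix.mulVec_transpose, hA, dotProduct_comm]

/-- a real space of dimension `n + 3` of symmetric complex `2n × 2n` matrices contains a nonzero
singular matrix. -/
theorem exists_singular_sym {n : ℕ} (hn : 1 ≤ n)
    (S : Fin (n + 1 + 1 + 1) → Matrix (Fin (2 * n)) (Fin (2 * n)) ℂ)
    (hsym : ∀ i, (S i).transpose = S i) :
    ∃ w : Fin (n + 1 + 1 + 1) → ℝ, w ≠ 0 ∧ (∑ i, (w i : ℂ) • S i).det = 0 := by
  classical
  by_contra hcon
  push Not at hcon
  have hS4 : (S (Fin.last _)).det ≠ 0 := by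
    have := hcon (Pi.single (Fin.last _) 1) (by
      intro h
      have := congrFun h (Fin.last _)
      simp at this)
    have e : ∑ i, (((Pi.single (Fin.last _) 1 : Fin (n + 1 + 1 + 1) → ℝ) i : ℝ) : ℂ) • S i =
        S (Fin.last _) := by
      rw [Finset.sum_eq_single (Fin.last _)]
      · simp
      · intro b _ hb
        simp [Pi.single_apply, hb]
      · simp
    rwa [e] at this
  obtain ⟨V, hVd, hV⟩ := Pool.Agent.H982R3.Sing.exists_congr (S (Fin.last _)) (hsym _) hS4
  obtain ⟨R, hR⟩ : ∃ R : (Fin (n + 1 + 1) → ℝ) → Matrix (Fin (2 * n)) (Fin (2 * n)) ℂ, R = fun x =>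
      ∑ i : Fin (n + 1 + 1), ((x i : ℝ) : ℂ) • (V.transpose * S i.castSucc * V) := ⟨_, rfl⟩
  have hRc : Continuous R := by
    rw [hR]
    refine continuous_finsetSum _ fun i _ => ?_
    have : Continuous fun x : Fin (n + 1 + 1) → ℝ => ((x i : ℝ) : ℂ) := by fun_prop
    exact this.smul continuous_const
  have hRneg : ∀ x, R (-x) = - R x := by
    intro x
    simp only [hR]
    rw [← Finset.sum_neg_distrib]
    refine Finset.sum_congr rfl fun i _ => ?_
    simp
  have hRs : ∀ x, (R x).transpose = R x := by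
    intro x
    simp only [hR]
    rw [Matrix.transpose_sum]
    refine Finset.sum_congr rfl fun i _ => ?_
    rw [Matrix.transpose_smul, Matrix.transpose_mul, Matrix.transpose_mul, hsym,
      Matrix.transpose_transpose, Matrix.mul_assoc]
  have hno : ∀ x ∈ K (n + 1), ∀ t : ℝ,
      (R x - (t : ℂ) • (1 : Matrix (Fin (2 * n)) (Fin (2 * n)) ℂ)).det ≠ 0 := by
    intro x hx t h
    have h1 := hcon (Fin.snoc (α := fun _ => ℝ) (fun i => x i) (-t)) (by
      intro h0
      have h2 : x = 0 := by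
        funext i
        have := congrFun h0 i.castSucc
        simpa using this
      rw [h2] at hx
      simp [K] at hx)
    apply h1
    have e : V.transpose * (∑ i, (((Fin.snoc (α := fun _ => ℝ) (fun i => x i) (-t) :
        Fin (n + 1 + 1 + 1) → ℝ) i : ℝ) : ℂ) • S i) * V
        = R x - (t : ℂ) • (1 : Matrix (Fin (2 * n)) (Fin (2 * n)) ℂ) := by
      rw [Fin.sum_univ_castSucc, mul_add, add_mul, hR, Finset.mul_sum, Finset.sum_mul]
      simp only [Fin.snoc_castSucc, Fin.snoc_last, Matrix.mul_smul, Matrix.smul_mul]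
      rw [hV]
      push_cast
      rw [neg_smul, sub_eq_add_neg]
    have e2 := congrArg Matrix.det e
    rw [h, Matrix.det_mul, Matrix.det_mul, Matrix.det_transpose] at e2
    rcases mul_eq_zero.1 e2 with h3 | h3
    · rcases mul_eq_zero.1 h3 with h4 | h4
      · exact absurd h4 hVd
      · exact h4
    · exact absurd h3 hVd
  have hcK : CompactSpace (K (n + 1)) := isCompact_iff_compactSpace.1 (K_compact (n + 1))
  obtain ⟨P, hPc, hPid, hPneg, hPs⟩ := exists_family_proj_symm
    (fun x : K (n + 1) => R x)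
    (hRc.comp continuous_subtype_val)
    (fun x t => hno x x.2 t)
  obtain ⟨A, hA⟩ : ∃ A : K (n + 1) → Matrix (Fin (2 * n)) (Fin (2 * n)) ℂ,
      A = fun x => P x + P x - 1 := ⟨_, rfl⟩
  have hAc : Continuous A := by
    rw [hA]; exact (hPc.add hPc).sub continuous_const
  have hA2 : ∀ x, A x * A x = 1 := by
    intro x
    have := hPid x
    rw [hA]
    show (P x + P x - 1) * (P x + P x - 1) = 1
    have e : (P x + P x - 1) * (P x + P x - 1) =
        4 • (P x * P x) - 4 • P x + 1 := by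
      noncomm_ring
    rw [e, this]
    simp
  have hAs : ∀ x, (A x)ᵀ = A x := by
    intro x
    rw [hA]
    show (P x + P x - 1)ᵀ = P x + P x - 1
    rw [Matrix.transpose_sub, Matrix.transpose_add, hPs x (hRs x), Matrix.transpose_one]
  have hAneg : ∀ x y : K (n + 1), (y : Fin (n + 1 + 1) → ℝ) = - x → A y = - A x := by
    intro x y hxy
    have := hPneg x y (by rw [hxy, hRneg])
    rw [hA]
    show P y + P y - 1 = -(P x + P x - 1)
    rw [this]
    abel
  obtain ⟨T, hT⟩ : ∃ T : Matrix (Fin (2 * n)) (Fin (2 * n)) ℂ →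
      (EuclideanSpace ℝ (Fin (2 * n)) →L[ℝ] EuclideanSpace ℝ (Fin (2 * n))),
      T = fun M => Matrix.toEuclideanCLM (n := Fin (2 * n)) (𝕜 := ℝ) (M.map Complex.re) := ⟨_, rfl⟩
  have hTc : Continuous T := by
    rw [hT]
    have h1 : Continuous fun M : Matrix (Fin (2 * n)) (Fin (2 * n)) ℂ => M.map Complex.re :=
      continuous_id.matrix_map Complex.continuous_re
    have h2 : Continuous (Matrix.toEuclideanCLM (n := Fin (2 * n)) (𝕜 := ℝ)) :=
      LinearMap.continuous_of_finiteDimensional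
        ((Matrix.toEuclideanCLM (n := Fin (2 * n)) (𝕜 := ℝ)).toAlgEquiv.toLinearMap)
    exact h2.comp h1
  have hTneg : ∀ M, T (-M) = - T M := by
    intro M
    rw [hT]
    show Matrix.toEuclideanCLM (n := Fin (2 * n)) (𝕜 := ℝ) ((-M).map Complex.re) =
      - Matrix.toEuclideanCLM (n := Fin (2 * n)) (𝕜 := ℝ) (M.map Complex.re)
    rw [← map_neg]
    congr 1
  refine no_odd_selfadj hn (fun w => if h : w ∈ K (n + 1) then T (A ⟨w, h⟩) else 0) ?_ ?_ ?_ ?_
  · rw [continuousOn_iff_continuous_domRestrict]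
    have e : (K (n + 1)).domRestrict (fun w => if h : w ∈ K (n + 1) then T (A ⟨w, h⟩) else 0) =
        fun x => T (A x) := by
      funext x
      rw [Set.domRestrict_apply, dif_pos x.2]
    rw [e]
    exact hTc.comp hAc
  · intro w hw u v
    simp only [dif_pos hw, hT]
    exact re_symm _ (hAs _) u v
  · intro w hw v
    simp only [dif_pos hw, hT]
    exact re_low _ (hA2 _) (hAs _) v
  · intro w hw
    have hw' : -w ∈ K (n + 1) := K_neg (n + 1) hw
    simp only [dif_pos hw, dif_pos hw']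
    rw [hAneg ⟨w, hw⟩ ⟨-w, hw'⟩ rfl, hTneg]

end Pool.Agent.H804R5
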