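import Mathlib

set_option autoImplicit false

/-!
Pushing a frame along a family of invertible self-adjoint operators.
-/

namespace Pool.Agent.H804R5

open Set

section step

variable {E : Type*} [NormedAddCommGroup E] [InnerProductSpace ℝ E]

/-- one step `v ↦ v + η H v` improves positivity. -/
theorem step_pos (H : E →L[ℝ] E) (hsym : ∀ u v, inner ℝ (H u) v = inner ℝ u (H v))
    (hlow : ∀ v, ‖v‖ ≤ ‖H v‖) (B : ℝ) (hB : 1 ≤ B) (hHB : ‖H‖ ≤ B) (v : E)
    (hv : 0 ≤ inner ℝ (H v) v) :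
    (1 / (4 * B)) * ‖v + (1 / B) • H v‖ ^ 2 ≤
      inner ℝ (H (v + (1 / B) • H v)) (v + (1 / B) • H v) ∧
    (v ≠ 0 → v + (1 / B) • H v ≠ 0) := by
  have hB0 : 0 < B := by linarith
  set η : ℝ := 1 / B with hη
  have hη0 : 0 < η := by positivity
  have hηB : η * B = 1 := by rw [hη]; field_simp
  set y := H v with hy
  have hHy : |inner ℝ (H y) y| ≤ B * ‖y‖ ^ 2 := by
    calc |inner ℝ (H y) y| ≤ ‖H y‖ * ‖y‖ := abs_real_inner_le_norm _ _
      _ ≤ (B * ‖y‖) * ‖y‖ := by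
          gcongr
          exact (H.le_opNorm y).trans (by gcongr)
      _ = B * ‖y‖ ^ 2 := by ring
  have e1 : inner ℝ (H (v + η • y)) (v + η • y) =
      inner ℝ y v + 2 * η * ‖y‖ ^ 2 + η ^ 2 * inner ℝ (H y) y := by
    rw [map_add, map_smul, ← hy]
    simp only [inner_add_left, inner_add_right, inner_smul_left, inner_smul_right,
      real_inner_self_eq_norm_sq, conj_trivial]
    have : inner ℝ (H y) v = ‖y‖ ^ 2 := by
      rw [hsym, ← hy, real_inner_self_eq_norm_sq]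
    rw [this]
    ring
  have e2 : η * ‖y‖ ^ 2 ≤ inner ℝ (H (v + η • y)) (v + η • y) := by
    rw [e1]
    have h1 : -(B * ‖y‖ ^ 2) ≤ inner ℝ (H y) y := (abs_le.1 hHy).1
    have h2 : η ^ 2 * (-(B * ‖y‖ ^ 2)) ≤ η ^ 2 * inner ℝ (H y) y := by gcongr
    have h3 : η ^ 2 * (-(B * ‖y‖ ^ 2)) = -(η * ‖y‖ ^ 2) := by
      have : η ^ 2 * (-(B * ‖y‖ ^ 2)) = -(η * (η * B) * ‖y‖ ^ 2) := by ring
      rw [this, hηB]; ring
    linarith
  have hvy : ‖v‖ ≤ ‖y‖ := hlow v
  have hyB : ‖y‖ ≤ B * ‖v‖ := (H.le_opNorm v).trans (by gcongr)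
  have hn : ‖v + η • y‖ ≤ 2 * ‖v‖ := by
    calc ‖v + η • y‖ ≤ ‖v‖ + ‖η • y‖ := norm_add_le _ _
      _ = ‖v‖ + η * ‖y‖ := by rw [norm_smul, Real.norm_eq_abs, abs_of_pos hη0]
      _ ≤ ‖v‖ + η * (B * ‖v‖) := by gcongr
      _ = 2 * ‖v‖ := by rw [← mul_assoc, hηB]; ring
  refine ⟨?_, ?_⟩
  · have h4 : 1 / (4 * B) = η / 4 := by rw [hη]; field_simp
    rw [h4]
    have h5 : ‖v + η • y‖ ^ 2 ≤ 4 * ‖v‖ ^ 2 := by
      have := pow_le_pow_left₀ (norm_nonneg _) hn 2
      nlinarith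
    have h6 : ‖v‖ ^ 2 ≤ ‖y‖ ^ 2 := pow_le_pow_left₀ (norm_nonneg _) hvy 2
    calc η / 4 * ‖v + η • y‖ ^ 2 ≤ η / 4 * (4 * ‖v‖ ^ 2) := by gcongr
      _ = η * ‖v‖ ^ 2 := by ring
      _ ≤ η * ‖y‖ ^ 2 := by gcongr
      _ ≤ _ := e2
  · intro hv0 h0
    rw [h0] at e2
    simp only [map_zero, inner_zero_left] at e2
    have h7 : 0 < ‖v‖ := norm_pos_iff.2 hv0
    have h8 : 0 < η * ‖y‖ ^ 2 := by
      have : 0 < ‖y‖ := lt_of_lt_of_le h7 hvy
      positivity
    linarith

/-- changing the operator slightly keeps nonnegativity. -/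
theorem step_close (H H' : E →L[ℝ] E) (c : ℝ) (hc : ‖H - H'‖ ≤ c) (v : E)
    (hv : c * ‖v‖ ^ 2 ≤ inner ℝ (H v) v) : 0 ≤ inner ℝ (H' v) v := by
  have h1 : inner ℝ (H' v) v = inner ℝ (H v) v - inner ℝ ((H - H') v) v := by
    rw [sub_apply, inner_sub_left]; ring
  have h2 : inner ℝ ((H - H') v) v ≤ c * ‖v‖ ^ 2 := by
    calc inner ℝ ((H - H') v) v ≤ ‖(H - H') v‖ * ‖v‖ := real_inner_le_norm _ _
      _ ≤ (c * ‖v‖) * ‖v‖ := by
          gcongr
          exact ((H - H').le_opNorm v).trans (by gcongr)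
      _ = c * ‖v‖ ^ 2 := by ring
  rw [h1]; linarith

end step

/-- a self-adjoint operator on a `2n`-dimensional space, or its negative, is nonnegative on some
`n`-dimensional subspace. -/
theorem exists_frame {n : ℕ} (H : EuclideanSpace ℝ (Fin (2 * n)) →L[ℝ] EuclideanSpace ℝ (Fin (2 * n)))
    (hsym : ∀ u v, inner ℝ (H u) v = inner ℝ u (H v)) :
    ∃ (s : ℝ) (b : Fin n → EuclideanSpace ℝ (Fin (2 * n))), (s = 1 ∨ s = -1) ∧
      LinearIndependent ℝ b ∧
      ∀ c : Fin n → ℝ, 0 ≤ inner ℝ ((s • H) (∑ j, c j • b j)) (∑ j, c j • b j) := by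
  classical
  have hT : (H : EuclideanSpace ℝ (Fin (2 * n)) →ₗ[ℝ] EuclideanSpace ℝ (Fin (2 * n))).IsSymmetric :=
    fun u v => hsym u v
  have hd : Module.finrank ℝ (EuclideanSpace ℝ (Fin (2 * n))) = 2 * n := by simp
  set lam := hT.eigenvalues hd with hlam
  set e := hT.eigenvectorBasis hd with he
  have hval : ∀ (ι : Fin n → Fin (2 * n)), Function.Injective ι → ∀ c : Fin n → ℝ,
      inner ℝ (H (∑ j, c j • e (ι j))) (∑ j, c j • e (ι j)) = ∑ j, lam (ι j) * c j ^ 2 := by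
    intro ι hι c
    have h1 : H (∑ j, c j • e (ι j)) = ∑ j, (c j * lam (ι j)) • e (ι j) := by
      rw [map_sum]
      refine Finset.sum_congr rfl fun j _ => ?_
      rw [map_smul]
      have : H (e (ι j)) = lam (ι j) • e (ι j) := by
        exact hT.apply_eigenvectorBasis hd (ι j)
      rw [this, smul_smul]
    rw [h1, sum_inner]
    refine Finset.sum_congr rfl fun j _ => ?_
    rw [inner_sum]
    rw [Finset.sum_eq_single j]
    · rw [inner_smul_left, inner_smul_right, real_inner_self_eq_norm_sq, e.norm_eq_one]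
      simp; ring
    · intro l _ hl
      rw [inner_smul_left, inner_smul_right, e.inner_eq_zero (fun h => hl (hι h.symm))]
      simp
    · intro h; exact absurd (Finset.mem_univ j) h
  have hind : ∀ (ι : Fin n → Fin (2 * n)), Function.Injective ι →
      LinearIndependent ℝ (fun j => e (ι j)) := fun ι hι =>
    e.orthonormal.linearIndependent.comp ι hι
  set P := Finset.univ.filter (fun i : Fin (2 * n) => 0 ≤ lam i) with hP
  set Q := Finset.univ.filter (fun i : Fin (2 * n) => ¬ 0 ≤ lam i) with hQ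
  have hcard : P.card + Q.card = 2 * n := by
    have := Finset.card_filter_add_card_filter_not (s := (Finset.univ : Finset (Fin (2 * n))))
      (fun i : Fin (2 * n) => 0 ≤ lam i)
    rw [Finset.card_univ, Fintype.card_fin] at this
    exact this
  have hex : ∀ (R : Finset (Fin (2 * n))), n ≤ R.card →
      ∃ ι : Fin n → Fin (2 * n), Function.Injective ι ∧ ∀ j, ι j ∈ R := by
    intro R hR
    obtain ⟨R', hR', hc⟩ := Finset.exists_subset_card_eq hR
    let f := R'.equivFinOfCardEq hc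
    refine ⟨fun j => (f.symm j : Fin (2 * n)), ?_, fun j => hR' (f.symm j).2⟩
    intro a b hab
    exact f.symm.injective (Subtype.ext hab)
  rcases le_or_gt n P.card with h | h
  · obtain ⟨ι, hι, hm⟩ := hex P h
    refine ⟨1, fun j => e (ι j), Or.inl rfl, hind ι hι, fun c => ?_⟩
    rw [one_smul, hval ι hι c]
    refine Finset.sum_nonneg fun j _ => mul_nonneg ?_ (sq_nonneg _)
    exact (Finset.mem_filter.1 (hm j)).2
  · obtain ⟨ι, hι, hm⟩ := hex Q (by omega)
    refine ⟨-1, fun j => e (ι j), Or.inr rfl, hind ι hι, fun c => ?_⟩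
    have hneg : ((-1 : ℝ) • H) = -H := by
      ext u
      simp
    rw [hneg, neg_apply, inner_neg_left, hval ι hι c]
    rw [← Finset.sum_neg_distrib]
    refine Finset.sum_nonneg fun j _ => ?_
    have h1 := (Finset.mem_filter.1 (hm j)).2
    push Not at h1
    nlinarith [sq_nonneg (c j)]

end Pool.Agent.H804R5
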