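import Pool.Agent.H804R5.Step
import Pool.Agent.Helper133.BUProd

set_option autoImplicit false

/-!
There is no odd continuous family, over a sphere of dimension `n + 1`, of invertible self-adjoint
operators on a space of dimension `2n`.
-/

namespace Pool.Agent.H804R5

open Set Pool.Agent.Helper133.BU Pool.Agent.Helper133.BT

/-- the arc from the pole to the point `x` of the equator -/
def W {n : ℕ} (t : ℝ) (x : Fin (n + 1) → ℝ) : Fin (n + 1 + 1) → ℝ :=
  Fin.snoc (α := fun _ => ℝ) (fun i => t * x i) (1 - t)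

theorem W_mem {n : ℕ} {t : ℝ} (h0 : 0 ≤ t) (h1 : t ≤ 1) {x : Fin (n + 1) → ℝ} (hx : x ∈ K n) :
    W t x ∈ K (n + 1) := by
  simp only [K, Set.mem_ofPred_eq] at hx ⊢
  rw [Fin.sum_univ_castSucc]
  simp only [W, Fin.snoc_castSucc, Fin.snoc_last, abs_mul]
  rw [← Finset.mul_sum, hx, abs_of_nonneg h0, abs_of_nonneg (by linarith : (0:ℝ) ≤ 1 - t)]
  ring

theorem W_continuous {n : ℕ} (t : ℝ) : Continuous (W t : (Fin (n + 1) → ℝ) → _) := by
  refine continuous_pi fun i => ?_
  refine Fin.lastCases ?_ (fun j => ?_) i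
  · simp only [W, Fin.snoc_last]
    exact continuous_const
  · simp only [W, Fin.snoc_castSucc]
    fun_prop

theorem W_one_neg {n : ℕ} (x : Fin (n + 1) → ℝ) : W 1 (-x) = - W 1 x := by
  funext i
  refine Fin.lastCases ?_ (fun j => ?_) i
  · simp [W]
  · simp [W]

theorem W_zero {n : ℕ} (x y : Fin (n + 1) → ℝ) : W 0 x = W 0 y := by
  funext i
  refine Fin.lastCases ?_ (fun j => ?_) i
  · simp [W]
  · simp [W]

theorem W_dist {n : ℕ} {s t : ℝ} {x : Fin (n + 1) → ℝ} (hx : x ∈ K n) :
    dist (W s x) (W t x) ≤ |s - t| := by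
  rw [dist_pi_le_iff (abs_nonneg _)]
  intro i
  refine Fin.lastCases ?_ (fun j => ?_) i
  · simp only [W, Fin.snoc_last, Real.dist_eq]
    have : 1 - s - (1 - t) = -(s - t) := by ring
    rw [this, abs_neg]
  · simp only [W, Fin.snoc_castSucc, Real.dist_eq]
    rw [← sub_mul, abs_mul]
    have hxj : |x j| ≤ 1 := by
      simp only [K, Set.mem_ofPred_eq] at hx
      rw [← hx]
      exact Finset.single_le_sum (f := fun i => |x i|) (fun _ _ => abs_nonneg _) (Finset.mem_univ j)
    calc |s - t| * |x j| ≤ |s - t| * 1 := by gcongr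
      _ = |s - t| := mul_one _

/-- the product of the elementary steps -/
noncomputable def PR {n : ℕ} {E : Type*} [NormedAddCommGroup E] [InnerProductSpace ℝ E]
    (H : (Fin (n + 1 + 1) → ℝ) → (E →L[ℝ] E)) (η : ℝ) (N : ℕ) :
    ℕ → (Fin (n + 1) → ℝ) → (E →L[ℝ] E)
  | 0, _ => 1
  | i + 1, x => (1 + η • H (W ((i : ℝ) / N) x)) * PR H η N i x

theorem K_neg' (m : ℕ) {y : Fin (m + 1) → ℝ} (hy : y ∈ K m) : -y ∈ K m := K_neg m hy

/-- continuous `n`-frames spanning positive subspaces. -/
theorem exists_frames {n : ℕ}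
    (H : (Fin (n + 1 + 1) → ℝ) →
      (EuclideanSpace ℝ (Fin (2 * n)) →L[ℝ] EuclideanSpace ℝ (Fin (2 * n))))
    (hc : ContinuousOn H (K (n + 1)))
    (hsym : ∀ w ∈ K (n + 1), ∀ u v, inner ℝ (H w u) v = inner ℝ u (H w v))
    (hlow : ∀ w ∈ K (n + 1), ∀ v, ‖v‖ ≤ ‖H w v‖)
    (x₀ : Fin (n + 1) → ℝ)
    (b : Fin n → EuclideanSpace ℝ (Fin (2 * n))) (hb : LinearIndependent ℝ b)
    (hpos : ∀ c : Fin n → ℝ, 0 ≤ inner ℝ (H (W 0 x₀) (∑ j, c j • b j)) (∑ j, c j • b j)) :
    ∃ G : (Fin (n + 1) → ℝ) → Fin n → EuclideanSpace ℝ (Fin (2 * n)),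
      (∀ j, ContinuousOn (fun x => G x j) (K n)) ∧
      ∀ x ∈ K n, ∀ c : Fin n → ℝ, c ≠ 0 →
        0 < inner ℝ (H (W 1 x) (∑ j, c j • G x j)) (∑ j, c j • G x j) := by
  obtain ⟨B₀, hB₀⟩ := (K_compact (n + 1)).exists_bound_of_continuousOn hc
  set B : ℝ := max 1 B₀ with hB
  have hB1 : 1 ≤ B := le_max_left _ _
  have hBn : ∀ w ∈ K (n + 1), ‖H w‖ ≤ B := fun w hw => (hB₀ w hw).trans (le_max_right _ _)
  have huc := (K_compact (n + 1)).uniformContinuousOn_of_continuous hc
  rw [Metric.uniformContinuousOn_iff] at huc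
  have hε : 0 < 1 / (4 * B) := by positivity
  obtain ⟨δ, hδ, hd⟩ := huc (1 / (4 * B)) hε
  obtain ⟨N, hN⟩ := exists_nat_gt (1 / δ)
  have hN0 : 0 < (N : ℝ) := lt_trans (by positivity) hN
  have hN1 : 1 / (N : ℝ) < δ := by
    rw [div_lt_iff₀ hN0]
    rw [div_lt_iff₀ hδ] at hN
    linarith
  have hfr : ∀ i ≤ N, (0 : ℝ) ≤ (i : ℝ) / N ∧ (i : ℝ) / N ≤ 1 := by
    intro i hi
    refine ⟨by positivity, ?_⟩
    rw [div_le_one hN0]
    exact_mod_cast hi
  have hmem : ∀ x ∈ K n, ∀ i ≤ N, W ((i : ℝ) / N) x ∈ K (n + 1) := fun x hx i hi =>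
    W_mem (hfr i hi).1 (hfr i hi).2 hx
  -- the invariant
  have inv : ∀ x ∈ K n, ∀ c : Fin n → ℝ, c ≠ 0 → ∀ i ≤ N,
      PR H (1 / B) N i x (∑ j, c j • b j) ≠ 0 ∧
      0 ≤ inner ℝ (H (W ((i : ℝ) / N) x) (PR H (1 / B) N i x (∑ j, c j • b j)))
        (PR H (1 / B) N i x (∑ j, c j • b j)) := by
    intro x hx c hc0 i
    induction i with
    | zero =>
      intro _
      refine ⟨?_, ?_⟩
      · show (1 : EuclideanSpace ℝ (Fin (2 * n)) →L[ℝ] _) (∑ j, c j • b j) ≠ 0
        intro h
        apply hc0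
        funext j
        exact Fintype.linearIndependent_iff.1 hb c (by simpa using h) j
      · show 0 ≤ inner ℝ (H (W (((0 : ℕ) : ℝ) / N) x)
          ((1 : EuclideanSpace ℝ (Fin (2 * n)) →L[ℝ] _) (∑ j, c j • b j)))
          ((1 : EuclideanSpace ℝ (Fin (2 * n)) →L[ℝ] _) (∑ j, c j • b j))
        rw [one_apply_eq_self, Nat.cast_zero, zero_div, W_zero x x₀]
        exact hpos c
    | succ i ih =>
      intro hi
      obtain ⟨h1, h2⟩ := ih (by omega)
      set v := PR H (1 / B) N i x (∑ j, c j • b j) with hv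
      have hm := hmem x hx i (by omega)
      obtain ⟨h3, h4⟩ := step_pos (H (W ((i : ℝ) / N) x)) (hsym _ hm) (hlow _ hm) B hB1
        (hBn _ hm) v h2
      have e : PR H (1 / B) N (i + 1) x (∑ j, c j • b j) =
          v + (1 / B) • H (W ((i : ℝ) / N) x) v := by
        show ((1 + (1 / B) • H (W ((i : ℝ) / N) x)) * PR H (1 / B) N i x) (∑ j, c j • b j) = _
        rw [mul_apply_eq_comp, ← hv]
        simp
      rw [e]
      refine ⟨h4 h1, ?_⟩
      refine step_close _ _ (1 / (4 * B)) ?_ _ h3
      have hm' := hmem x hx (i + 1) hi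
      have h5 := hd _ hm _ hm' (by
        refine lt_of_le_of_lt (W_dist hx) ?_
        have : ((i : ℝ) / N - ((i + 1 : ℕ) : ℝ) / N) = -(1 / N) := by
          push_cast; field_simp; ring
        rw [this, abs_neg, abs_of_pos (by positivity)]
        exact hN1)
      rw [dist_eq_norm] at h5
      exact h5.le
  have hcont : ∀ i ≤ N, ContinuousOn (PR H (1 / B) N i) (K n) := by
    intro i
    induction i with
    | zero => intro _; exact continuousOn_const
    | succ i ih =>
      intro hi
      have h1 : ContinuousOn (fun x => H (W ((i : ℝ) / N) x)) (K n) :=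
        hc.comp (W_continuous _).continuousOn (fun x hx => hmem x hx i (by omega))
      exact (continuousOn_const.add (h1.const_smul (1 / B))).mul (ih (by omega))
  refine ⟨fun x j => PR H (1 / B) N N x (b j) + (1 / B) • H (W 1 x) (PR H (1 / B) N N x (b j)),
    ?_, ?_⟩
  · intro j
    have h1 : ContinuousOn (fun x => PR H (1 / B) N N x (b j)) (K n) :=
      (hcont N le_rfl).clm_apply continuousOn_const
    have h2 : ContinuousOn (fun x => H (W 1 x)) (K n) :=
      hc.comp (W_continuous _).continuousOn (fun x hx => W_mem zero_le_one le_rfl hx)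
    have h3 : ContinuousOn (fun x => (1 / B) • H (W 1 x) (PR H (1 / B) N N x (b j))) (K n) := by
      have h4 := ContinuousOn.const_smul (h2.clm_apply h1) (1 / B)
      exact h4
    exact h1.add h3
  · intro x hx c hc0
    obtain ⟨h1, h2⟩ := inv x hx c hc0 N le_rfl
    have hNN : (N : ℝ) / N = 1 := div_self hN0.ne'
    rw [hNN] at h2
    have hm : W 1 x ∈ K (n + 1) := W_mem zero_le_one le_rfl hx
    obtain ⟨h3, h4⟩ := step_pos (H (W 1 x)) (hsym _ hm) (hlow _ hm) B hB1 (hBn _ hm) _ h2
    have e : ∑ j, c j • (PR H (1 / B) N N x (b j) + (1 / B) • H (W 1 x) (PR H (1 / B) N N x (b j)))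
        = PR H (1 / B) N N x (∑ j, c j • b j) +
          (1 / B) • H (W 1 x) (PR H (1 / B) N N x (∑ j, c j • b j)) := by
      simp only [map_sum, map_smul, smul_add, Finset.sum_add_distrib, Finset.smul_sum]
      congr 1
      refine Finset.sum_congr rfl fun j _ => ?_
      rw [smul_comm]
    rw [e]
    refine lt_of_lt_of_le ?_ h3
    have : 0 < ‖PR H (1 / B) N N x (∑ j, c j • b j) +
          (1 / B) • H (W 1 x) (PR H (1 / B) N N x (∑ j, c j • b j))‖ := norm_pos_iff.2 (h4 h1)
    positivity

/-- zero padding. -/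
noncomputable def emb {n : ℕ} (y : Fin (n + 1) → ℝ) : EuclideanSpace ℝ (Fin (2 * n)) :=
  WithLp.toLp 2 (fun i => if h : i.val < n + 1 then y ⟨i.val, h⟩ else 0)

theorem emb_neg {n : ℕ} (y : Fin (n + 1) → ℝ) : emb (-y) = - emb y := by
  ext i
  simp only [emb, PiLp.neg_apply, Pi.neg_apply]
  split_ifs <;> simp

theorem emb_continuous {n : ℕ} : Continuous (emb : (Fin (n + 1) → ℝ) → _) := by
  refine (PiLp.continuous_toLp 2 _).comp (continuous_pi fun i => ?_)
  split_ifs
  · fun_prop
  · exact continuous_const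

theorem emb_ne_zero {n : ℕ} (hn : 1 ≤ n) {y : Fin (n + 1) → ℝ} (hy : y ≠ 0) : emb y ≠ 0 := by
  intro h
  apply hy
  funext j
  have := congrArg (fun z : EuclideanSpace ℝ (Fin (2 * n)) => z ⟨j.val, by omega⟩) h
  simp [emb] at this
  exact this (by omega)

/-- **No odd families.** There is no odd continuous family, over the `(n+1)`-sphere, of invertible
self-adjoint operators on a space of dimension `2n`. -/
theorem no_odd_selfadj {n : ℕ} (hn : 1 ≤ n)
    (H : (Fin (n + 1 + 1) → ℝ) →
      (EuclideanSpace ℝ (Fin (2 * n)) →L[ℝ] EuclideanSpace ℝ (Fin (2 * n))))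
    (hc : ContinuousOn H (K (n + 1)))
    (hsym : ∀ w ∈ K (n + 1), ∀ u v, inner ℝ (H w u) v = inner ℝ u (H w v))
    (hlow : ∀ w ∈ K (n + 1), ∀ v, ‖v‖ ≤ ‖H w v‖)
    (hodd : ∀ w ∈ K (n + 1), H (-w) = - H w) : False := by
  classical
  -- a point of the equator
  obtain ⟨x₀, hx₀⟩ : (K n).Nonempty := ⟨ev n 0, ev_mem n⟩
  have hW0 : W 0 x₀ ∈ K (n + 1) := W_mem le_rfl zero_le_one hx₀
  obtain ⟨s, b, hs, hb, hpos⟩ := exists_frame (H (W 0 x₀)) (hsym _ hW0)
  have hs2 : ∀ v : EuclideanSpace ℝ (Fin (2 * n)), ‖s • v‖ = ‖v‖ := by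
    intro v
    rcases hs with h | h <;> rw [h, norm_smul] <;> simp
  obtain ⟨G, hG, hGpos⟩ := exists_frames (fun w => s • H w) (hc.const_smul s)
    (fun w hw u v => by
      rw [smul_apply, smul_apply, inner_smul_left, inner_smul_right, hsym w hw]
      simp)
    (fun w hw v => by
      rw [smul_apply, hs2]; exact hlow w hw v)
    x₀ b hb hpos
  -- the frames at opposite points are complementary
  have hli : ∀ x ∈ K n, LinearIndependent ℝ (Sum.elim (G x) (G (-x))) := by
    intro x hx
    rw [Fintype.linearIndependent_iff]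
    intro g hg
    rw [Fintype.sum_sum_type] at hg
    simp only [Sum.elim_inl, Sum.elim_inr] at hg
    set c : Fin n → ℝ := fun j => g (Sum.inl j) with hcdef
    set d : Fin n → ℝ := fun j => g (Sum.inr j) with hddef
    set u := ∑ j, c j • G x j with hu
    set u' := ∑ j, d j • G (-x) j with hu'
    have huu : u' = -u := by
      have : u + u' = 0 := hg
      exact (neg_eq_of_add_eq_zero_right this).symm
    have hW1 : W 1 x ∈ K (n + 1) := W_mem zero_le_one le_rfl hx
    have hHn : H (W 1 (-x)) = - H (W 1 x) := by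
      rw [W_one_neg]; exact hodd _ hW1
    have h1 : c ≠ 0 → 0 < inner ℝ ((s • H (W 1 x)) u) u := hGpos x hx c
    have h2 : d ≠ 0 → 0 < inner ℝ ((s • H (W 1 (-x))) u') u' := hGpos (-x) (K_neg n hx) d
    have h3 : inner ℝ ((s • H (W 1 (-x))) u') u' = - inner ℝ ((s • H (W 1 x)) u) u := by
      rw [hHn, huu]
      simp [inner_neg_left, inner_neg_right, inner_smul_left]
    have hc0 : c = 0 := by
      by_contra hcne
      have h4 := h1 hcne
      have hd0 : d = 0 := by
        by_contra hdne
        have h5 := h2 hdne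
        rw [h3] at h5
        linarith
      have : u' = 0 := by
        rw [hu', hd0]; simp
      rw [huu, neg_eq_zero] at this
      rw [this] at h4
      simp at h4
    have hd0 : d = 0 := by
      by_contra hdne
      have h5 := h2 hdne
      have : u = 0 := by
        rw [hu, hc0]; simp
      rw [h3, this] at h5
      simp at h5
    intro i
    rcases i with j | j
    · exact congrFun hc0 j
    · exact congrFun hd0 j
  have hperp : ∀ x ∈ K n, ∀ v : EuclideanSpace ℝ (Fin (2 * n)),
      (∀ j, inner ℝ (G x j) v = 0) → (∀ j, inner ℝ (G (-x) j) v = 0) → v = 0 := by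
    intro x hx v h1 h2
    have hcard : Fintype.card (Fin n ⊕ Fin n) =
        Module.finrank ℝ (EuclideanSpace ℝ (Fin (2 * n))) := by
      simp; ring
    have hspan := (hli x hx).span_eq_top_of_card_eq_finrank' hcard
    have hle : Submodule.span ℝ (Set.range (Sum.elim (G x) (G (-x)))) ≤
        LinearMap.ker (innerₛₗ ℝ v) := by
      rw [Submodule.span_le]
      rintro _ ⟨i, rfl⟩
      rw [SetLike.mem_coe, LinearMap.mem_ker]
      rcases i with j | j
      · simp only [Sum.elim_inl, innerₛₗ_apply_apply]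
        rw [real_inner_comm]; exact h1 j
      · simp only [Sum.elim_inr, innerₛₗ_apply_apply]
        rw [real_inner_comm]; exact h2 j
    rw [hspan] at hle
    have : v ∈ LinearMap.ker (innerₛₗ ℝ v) := hle Submodule.mem_top
    rw [LinearMap.mem_ker, innerₛₗ_apply_apply, real_inner_self_eq_norm_sq] at this
    exact norm_eq_zero.1 (pow_eq_zero_iff (by norm_num) |>.1 this)
  -- the test functions
  let a : Fin n → Om (fun _ => n) → ℝ := fun j v => inner ℝ (G (v 1) j) (emb (v 0))
  let a' : Fin n → Om (fun _ => n) → ℝ := fun j v => inner ℝ (G (-(v 1)) j) (emb (v 0))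
  let f : ℕ → ℕ → Om (fun _ => n) → ℝ := fun i r v =>
    if h : r < n then (if i = 0 then a ⟨r, h⟩ v + a' ⟨r, h⟩ v else a ⟨r, h⟩ v - a' ⟨r, h⟩ v) else 0
  have hca : ∀ j, ContinuousOn (a j) (PP (fun _ => n)) := by
    intro j
    have h1 : ContinuousOn (fun v : Om (fun _ => n) => G (v 1) j) (PP (fun _ => n)) :=
      (hG j).comp (continuous_apply (1 : ℕ)).continuousOn (fun v hv => hv 1)
    have h2 : Continuous (fun v : Om (fun _ => n) => (emb (v 0) : EuclideanSpace ℝ (Fin (2 * n)))) :=
      emb_continuous.comp (continuous_apply (0 : ℕ))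
    exact h1.inner h2.continuousOn
  have hca' : ∀ j, ContinuousOn (a' j) (PP (fun _ => n)) := by
    intro j
    have h1 : ContinuousOn (fun v : Om (fun _ => n) => G (-(v 1)) j) (PP (fun _ => n)) :=
      (hG j).comp (continuous_apply (1 : ℕ)).neg.continuousOn (fun v hv => K_neg n (hv 1))
    have h2 : Continuous (fun v : Om (fun _ => n) => (emb (v 0) : EuclideanSpace ℝ (Fin (2 * n)))) :=
      emb_continuous.comp (continuous_apply (0 : ℕ))
    exact h1.inner h2.continuousOn
  have ha0 : ∀ j v, a j (flp (fun _ => n) 0 v) = - a j v := by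
    intro j v
    simp only [a, flp, Function.update_self]
    rw [Function.update_of_ne (by norm_num), emb_neg, inner_neg_right]
  have ha0' : ∀ j v, a' j (flp (fun _ => n) 0 v) = - a' j v := by
    intro j v
    simp only [a', flp, Function.update_self]
    rw [Function.update_of_ne (by norm_num), emb_neg, inner_neg_right]
  have ha1 : ∀ j v, a j (flp (fun _ => n) 1 v) = a' j v := by
    intro j v
    simp only [a, a', flp, Function.update_self]
    rw [Function.update_of_ne (by norm_num)]
  have ha1' : ∀ j v, a' j (flp (fun _ => n) 1 v) = a j v := by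
    intro j v
    simp only [a, a', flp, Function.update_self, neg_neg]
    rw [Function.update_of_ne (by norm_num)]
  obtain ⟨v, hv, hzero⟩ := triangular (fun _ => n) (fun _ => hn) 2
    (fun i _ k => if k ≤ i then 1 else 0) (fun i r => by simp)
    (fun i r k hik => by simp [hik]) f
    (by
      intro i r
      by_cases hr : r < n
      · by_cases hi : i = 0
        · have : f i r = fun v => a ⟨r, hr⟩ v + a' ⟨r, hr⟩ v := by
            funext v; simp only [f, dif_pos hr, if_pos hi]
          rw [this]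
          exact (hca _).add (hca' _)
        · have : f i r = fun v => a ⟨r, hr⟩ v - a' ⟨r, hr⟩ v := by
            funext v; simp only [f, dif_pos hr, if_neg hi]
          rw [this]
          exact (hca _).sub (hca' _)
      · have : f i r = fun _ => 0 := by
          funext v; simp only [f, dif_neg hr]
        rw [this]
        exact continuousOn_const)
    (by
      intro i hi r hr k hk v hv
      have hr' : r < n := hr
      simp only [f, dif_pos hr']
      interval_cases i <;> interval_cases k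
      · simp only [ha0, ha0']; simp [sgn]; ring
      · simp only [ha1, ha1']; simp [sgn]; ring
      · simp only [ha0, ha0']; simp [sgn]; ring
      · simp only [ha1, ha1']; simp [sgn])
  have hv1 : v 1 ∈ K n := hv 1
  have hv0 : v 0 ∈ K n := hv 0
  have hsum : ∀ j, a j v + a' j v = 0 := by
    intro j
    have := hzero 0 (by norm_num) j.1 j.2
    simpa [f] using this
  have hdiff : ∀ j, a j v - a' j v = 0 := by
    intro j
    have := hzero 1 (by norm_num) j.1 j.2
    simpa [f] using this
  have hz := hperp (v 1) hv1 (emb (v 0)) (fun j => by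
    have h1 := hsum j
    have h2 := hdiff j
    show a j v = 0
    linarith) (fun j => by
    have h1 := hsum j
    have h2 := hdiff j
    show a' j v = 0
    linarith)
  refine emb_ne_zero hn ?_ hz
  intro h0
  have : v 0 ∈ K n := hv0
  rw [h0] at this
  simp [K] at this

end Pool.Agent.H804R5
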